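import Pool.Agent.TTC.StmtsF

set_option autoImplicit false

/-! Squad TTC, row CR6: the critical values of a sextic. -/

namespace Pool.Agent.TTC.H1

open Polynomial Pool.Agent.TTC

theorem coeff6 {R : Type} [CommRing R] (a : Fin 7 → R) : (sext a).coeff 6 = a 0 := by
  unfold sext
  simp [coeff_X_pow]

theorem deg6 {R : Type} [CommRing R] (a : Fin 7 → R) : (sext a).natDegree ≤ 6 := by
  unfold sext
  compute_degree

theorem crit_eq (k : Type) [Field k] [IsAlgClosed k] (a : Fin 7 → k) (h6 : (6 : k) ≠ 0)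
    (h0 : a 0 ≠ 0) :
    crit a = C ((a 0 * 6) ^ 6) *
      (((derivative (sext a)).roots.map (fun θ => (sext a).eval θ)).map (fun v => X - C v)).prod ∧
      derivative (sext a) ≠ 0 := by
  obtain ⟨F, hF⟩ : ∃ F, F = sext a := ⟨_, rfl⟩
  have hc5 : (derivative F).coeff 5 = a 0 * 6 := by
    rw [coeff_derivative, hF, coeff6]
    norm_num
  have hne : a 0 * 6 ≠ 0 := mul_ne_zero h0 h6
  have hd : (derivative F).natDegree ≤ 5 := by
    refine le_trans (natDegree_derivative_le F) ?_
    have := deg6 a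
    rw [← hF] at this
    omega
  have hd5 : (derivative F).natDegree = 5 :=
    le_antisymm hd (le_natDegree_of_ne_zero (by rw [hc5]; exact hne))
  have hlead : (derivative F).leadingCoeff = a 0 * 6 := by
    rw [leadingCoeff, hd5, hc5]
  have hF0 : derivative F ≠ 0 := by
    intro h
    rw [h, coeff_zero] at hc5
    exact hne hc5.symm
  have hsp : (derivative F).Splits := IsAlgClosed.splits _
  have hCi : Function.Injective (C : k →+* k[X]) := C_injective
  have hdm : ((derivative F).map (C : k →+* k[X])).natDegree = 5 := by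
    rw [natDegree_map_eq_of_injective hCi, hd5]
  have hlm : ((derivative F).map (C : k →+* k[X])).leadingCoeff = C (a 0 * 6) := by
    rw [leadingCoeff_map_of_injective hCi, hlead]
  have hrm : ((derivative F).map (C : k →+* k[X])).roots = (derivative F).roots.map C :=
    hsp.roots_map_of_injective hCi
  have hg : (C (X : k[X]) - F.map (C : k →+* k[X])).natDegree ≤ 6 := by
    refine le_trans (natDegree_sub_le _ _) ?_
    rw [natDegree_C, natDegree_map_eq_of_injective hCi, hF]
    have := deg6 a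
    omega
  have hres := resultant_eq_prod_eval ((derivative F).map (C : k →+* k[X]))
    (C (X : k[X]) - F.map (C : k →+* k[X])) 6 hg (hsp.map _)
  rw [hdm, hlm, hrm, Multiset.map_map] at hres
  rw [← hF]
  refine ⟨?_, hF0⟩
  have hcr : crit a = resultant ((derivative F).map (C : k →+* k[X]))
      (C (X : k[X]) - F.map (C : k →+* k[X])) 5 6 := by
    rw [hF]
    rfl
  rw [hcr, hres, ← C_pow, Multiset.map_map]
  congr 2
  refine Multiset.map_congr rfl fun θ _ => ?_
  simp only [Function.comp_apply, eval_sub, eval_C, eval_map_apply]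

theorem coeff0_prod (k : Type) [Field k] (s : Multiset k) :
    ((s.map (fun v => X - C v)).prod).coeff 0 = (s.map (fun v => -v)).prod := by
  induction s using Multiset.induction_on with
  | empty => simp
  | cons a s ih =>
    rw [Multiset.map_cons, Multiset.prod_cons, Multiset.map_cons, Multiset.prod_cons, mul_coeff_zero,
      ih]
    simp

theorem coeff0_zero (k : Type) [Field k] (s : Multiset k) :
    ((s.map (fun v => X - C v)).prod).coeff 0 = 0 ↔ (0 : k) ∈ s := by
  rw [coeff0_prod, Multiset.prod_eq_zero_iff, Multiset.mem_map]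
  constructor
  · rintro ⟨v, hv, h⟩
    rw [neg_eq_zero] at h
    rw [← h]
    exact hv
  · intro h
    exact ⟨0, h, neg_zero⟩

theorem cr6 : Cr6Stmt := by
  classical
  intro k _ _ a h6 h0
  obtain ⟨hcrit, hF0⟩ := crit_eq k a h6 h0
  obtain ⟨F, hF⟩ : ∃ F, F = sext a := ⟨_, rfl⟩
  rw [← hF] at hcrit hF0 ⊢
  obtain ⟨r, hr⟩ : ∃ r, r = (derivative F).roots := ⟨_, rfl⟩
  rw [← hr] at hcrit
  obtain ⟨s, hs⟩ : ∃ s, s = r.map (fun θ => F.eval θ) := ⟨_, rfl⟩
  rw [← hs] at hcrit
  have hc : (a 0 * 6) ^ 6 ≠ 0 := pow_ne_zero _ (mul_ne_zero h0 h6)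
  have hd0 : d6 a = 0 ↔ (0 : k) ∈ s := by
    unfold d6
    rw [hcrit, coeff_C_mul, mul_eq_zero, coeff0_zero]
    exact ⟨fun h => h.resolve_left hc, Or.inr⟩
  have hmr : ∀ θ, θ ∈ r ↔ (derivative F).eval θ = 0 := by
    intro θ
    rw [hr, mem_roots hF0]
    rfl
  have hms : (0 : k) ∈ s ↔ ∃ θ : k, F.eval θ = 0 ∧ (derivative F).eval θ = 0 := by
    rw [hs, Multiset.mem_map]
    constructor
    · rintro ⟨θ, h1, h2⟩
      exact ⟨θ, h2, (hmr θ).1 h1⟩
    · rintro ⟨θ, h1, h2⟩
      exact ⟨θ, (hmr θ).2 h2, h1⟩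
  refine ⟨hd0.trans hms, ?_⟩
  have he : ∀ s', s = 0 ::ₘ s' → (e6 a ≠ 0 ↔ (0 : k) ∉ s') := by
    intro s' hs'
    unfold e6
    rw [hcrit, coeff_C_mul, hs', Multiset.map_cons, Multiset.prod_cons, C_0, sub_zero,
      show (1 : ℕ) = 0 + 1 from rfl, coeff_X_mul]
    constructor
    · intro h h'
      rw [← coeff0_zero] at h'
      rw [h', mul_zero, mul_zero] at h
      exact h rfl
    · intro h
      exact mul_ne_zero (mul_ne_zero h6 h0) (mul_ne_zero hc fun h' => h ((coeff0_zero k s').1 h'))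
  constructor
  · rintro ⟨h1, h2⟩
    obtain ⟨θ, hθ1, hθ2⟩ := hms.1 (hd0.1 h1)
    obtain ⟨r', hr'⟩ := Multiset.exists_cons_of_mem ((hmr θ).2 hθ2)
    have hs' : s = 0 ::ₘ r'.map (fun θ => F.eval θ) := by
      rw [hs, hr', Multiset.map_cons, hθ1]
    have h3 := (he _ hs').1 h2
    have h4 : ∀ θ' ∈ r', F.eval θ' ≠ 0 := by
      intro θ' hm h
      exact h3 (Multiset.mem_map.2 ⟨θ', hm, h⟩)
    refine ⟨θ, hθ1, hθ2, ?_, ?_⟩
    · intro hdd
      have h5 : 1 < (derivative F).rootMultiplicity θ :=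
        (one_lt_rootMultiplicity_iff_isRoot hF0).2 ⟨hθ2, hdd⟩
      rw [← count_roots, ← hr, hr', Multiset.count_cons_self] at h5
      have h6' : θ ∈ r' := Multiset.count_pos.1 (by omega)
      exact h4 θ h6' hθ1
    · intro θ' h5 h6'
      have h7 := (hmr θ').2 h6'
      rw [hr', Multiset.mem_cons] at h7
      rcases h7 with h7 | h7
      · exact h7
      · exact absurd h5 (h4 θ' h7)
  · rintro ⟨θ, hθ1, hθ2, hθ3, hθ4⟩
    obtain ⟨r', hr'⟩ := Multiset.exists_cons_of_mem ((hmr θ).2 hθ2)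
    have hs' : s = 0 ::ₘ r'.map (fun θ => F.eval θ) := by
      rw [hs, hr', Multiset.map_cons, hθ1]
    refine ⟨hd0.2 (by rw [hs']; exact Multiset.mem_cons_self _ _), (he _ hs').2 ?_⟩
    intro h
    obtain ⟨θ', hm, h'⟩ := Multiset.mem_map.1 h
    have h5 : θ' ∈ r := by
      rw [hr']
      exact Multiset.mem_cons_of_mem hm
    have h6' := hθ4 θ' h' ((hmr θ').1 h5)
    subst h6'
    have h7 : 1 < (derivative F).rootMultiplicity θ' := by
      rw [← count_roots, ← hr, hr', Multiset.count_cons_self]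
      have := Multiset.count_pos.2 hm
      omega
    exact hθ3 ((one_lt_rootMultiplicity_iff_isRoot hF0).1 h7).2

end Pool.Agent.TTC.H1
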